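import Pool.Agent.GRA.StmtsM
import Pool.Agent.Helper64_FR.DERP
import Pool.Agent.Helper64_FR.FIX

/-!
# GRA, rows MDN and MED
-/

open MeasureTheory Matrix Finset
open scoped ComplexConjugate

namespace Pool.Agent.GRA.H32

open Pool.Agent.Helper64_FR Pool.Agent.UTR Pool.Agent.GRA

variable {n : ℕ}

theorem star_EE (i j : Fin n) : star (EE i j : Matrix (Fin n) (Fin n) ℂ) = EE j i := by
  rw [Matrix.star_eq_conjTranspose, EE, Matrix.conjTranspose_single, star_one]

theorem star_D {ρ : URep n} {D : Matrix (Fin n) (Fin n) ℂ →ₗ[ℂ] (ρ.Sp →L[ℂ] ρ.Sp)}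
    (hD : IsDer ρ D) (i j : Fin n) : star (D (EE i j)) = D (EE j i) := by
  rw [hD.star_eq, star_EE]

theorem inner_D {ρ : URep n} {D : Matrix (Fin n) (Fin n) ℂ →ₗ[ℂ] (ρ.Sp →L[ℂ] ρ.Sp)}
    (hD : IsDer ρ D) (i j : Fin n) (x y : ρ.Sp) :
    (inner ℂ (D (EE i j) x) y : ℂ) = inner ℂ x (D (EE j i) y) := by
  rw [← star_D hD i j, ContinuousLinearMap.star_eq_adjoint,
    ContinuousLinearMap.adjoint_inner_right]

theorem comm_D {ρ : URep n} {D : Matrix (Fin n) (Fin n) ℂ →ₗ[ℂ] (ρ.Sp →L[ℂ] ρ.Sp)}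
    (hD : IsDer ρ D) (i j : Fin n) (x : ρ.Sp) :
    D (EE i j) (D (EE j i) x) - D (EE j i) (D (EE i j) x) = D (EE i i) x - D (EE j j) x := by
  have h := congrArg (fun A : ρ.Sp →L[ℂ] ρ.Sp => A x) (hD.comm_eq (EE i j) (EE j i))
  have e1 : (EE i j * EE j i : Matrix (Fin n) (Fin n) ℂ) = EE i i := by
    rw [EE, EE, Matrix.single_mul_single_same, mul_one]
  have e2 : (EE j i * EE i j : Matrix (Fin n) (Fin n) ℂ) = EE j j := by
    rw [EE, EE, Matrix.single_mul_single_same, mul_one]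
  rw [e1, e2, map_sub] at h
  exact h

theorem sum_EE : (1 : Matrix (Fin n) (Fin n) ℂ) = ∑ i, EE i i := by
  ext a b
  rw [Matrix.sum_apply, Matrix.one_apply]
  by_cases h : a = b
  · subst h
    rw [if_pos rfl, Finset.sum_eq_single a]
    · simp [EE]
    · intro c _ hc
      simp [EE, hc]
    · simp
  · rw [if_neg h]
    symm
    apply Finset.sum_eq_zero
    intro c _
    rw [EE, Matrix.single_apply, if_neg]
    rintro ⟨h1, h2⟩
    exact h (h1.symm.trans h2)

theorem kill_last {ρ : URep n} {D : Matrix (Fin n) (Fin n) ℂ →ₗ[ℂ] (ρ.Sp →L[ℂ] ρ.Sp)}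
    (hD : IsDer ρ D) (l : Fin n) (v : ρ.Sp) (hv : Fx ρ {l} v) : D (EE l l) v = 0 := by
  have h1 : ρ.P {l} v = v := (FIX_proof n ρ {l}).2.1 v hv
  have h2 := DERP_proof FIX_proof n ρ D hD {l} l l (Finset.mem_singleton_self l)
    (Finset.mem_singleton_self l)
  have h3 := congrArg (fun A : ρ.Sp →L[ℂ] ρ.Sp => A v) h2
  have h4 : D (EE l l) (ρ.P {l} v) = 0 := h3
  rwa [h1] at h4

theorem mdn (min : MINStmt) : MDNStmt := by
  intro n ρ σ T hT D D' C C' hD hD' hC hC' hD1
  have hone : ∀ x : σ.Sp,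
      ∑ i : Fin n, D (EE i.castSucc (Fin.last n)) (D (EE (Fin.last n) i.castSucc) (T x)) =
      (((C - C') / 2 : ℝ) : ℂ) • T x := by
    intro x
    have hll : D (EE (Fin.last n) (Fin.last n)) (T x) = 0 := kill_last hD _ _ (hT.fix x)
    have hsum : ∑ i : Fin n, D (EE i.castSucc i.castSucc) (T x) = 0 := by
      have h := congrArg (fun A : ρ.Sp →L[ℂ] ρ.Sp => A (T x)) hD1
      have h' : (D 1) (T x) = 0 := h
      rw [sum_EE, map_sum, _root_.sum_apply, Fin.sum_univ_castSucc, hll,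
        add_zero] at h'
      exact h'
    -- Casimir of ρ
    have hcas : ∑ i, ∑ j, D (EE j i) (D (EE i j) (T x)) = (C : ℂ) • T x := by
      have h := congrArg (fun A : ρ.Sp →L[ℂ] ρ.Sp => A (T x)) hC
      simp only [_root_.sum_apply] at h
      have e : ∀ i j, (star (D (EE i j)) * D (EE i j)) (T x) = D (EE j i) (D (EE i j) (T x)) := by
        intro i j
        rw [star_D hD]
        rfl
      simp only [e] at h
      exact h
    have hcas' : ∑ i, ∑ j, D' (EE j i) (D' (EE i j) x) = (C' : ℂ) • x := by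
      have h := congrArg (fun A : σ.Sp →L[ℂ] σ.Sp => A x) hC'
      simp only [_root_.sum_apply] at h
      have e : ∀ i j, (star (D' (EE i j)) * D' (EE i j)) x = D' (EE j i) (D' (EE i j) x) := by
        intro i j
        rw [star_D hD']
        rfl
      simp only [e] at h
      exact h
    have hT' : ∑ i : Fin n, ∑ j : Fin n, D (EE j.castSucc i.castSucc)
        (D (EE i.castSucc j.castSucc) (T x)) = (C' : ℂ) • T x := by
      rw [← map_smul, ← hcas', map_sum]
      refine Finset.sum_congr rfl fun i _ => ?_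
      rw [map_sum]
      refine Finset.sum_congr rfl fun j _ => ?_
      rw [min n ρ σ T hT D D' hD hD', min n ρ σ T hT D D' hD hD']
    have hcomm : ∀ i : Fin n,
        D (EE (Fin.last n) i.castSucc) (D (EE i.castSucc (Fin.last n)) (T x)) =
        D (EE i.castSucc (Fin.last n)) (D (EE (Fin.last n) i.castSucc) (T x)) -
          D (EE i.castSucc i.castSucc) (T x) := by
      intro i
      have h := comm_D hD i.castSucc (Fin.last n) (T x)
      rw [hll, sub_zero] at h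
      rw [← h]
      abel
    rw [Fin.sum_univ_castSucc] at hcas
    simp only [Fin.sum_univ_castSucc] at hcas
    rw [Finset.sum_add_distrib, hT', hll, map_zero, add_zero] at hcas
    simp only [hcomm] at hcas
    rw [Finset.sum_sub_distrib, hsum, sub_zero] at hcas
    -- C' v + S + S = C v
    have h2 : (2 : ℂ) • (∑ i : Fin n, D (EE i.castSucc (Fin.last n))
        (D (EE (Fin.last n) i.castSucc) (T x))) = ((C : ℂ) - C') • T x := by
      rw [two_smul, sub_smul, ← hcas]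
      abel
    have h3 : (((C - C') / 2 : ℝ) : ℂ) • T x = (1 / 2 : ℂ) • (((C : ℂ) - C') • T x) := by
      rw [smul_smul]
      congr 1
      push_cast
      ring
    rw [h3, ← h2, smul_smul]
    norm_num
  refine ⟨hone, ?_⟩
  intro ν x hx hν
  have hv : 0 < ‖T x‖ ^ 2 := by
    rw [LinearIsometry.norm_map]
    have := norm_pos_iff.2 hx
    positivity
  have hll : D (EE (Fin.last n) (Fin.last n)) (T x) = 0 := kill_last hD _ _ (hT.fix x)
  have hsq : ∀ a b : Fin (n + 1), (inner ℂ (T x) (D (EE a b) (D (EE b a) (T x))) : ℂ) =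
      ((‖D (EE b a) (T x)‖ ^ 2 : ℝ) : ℂ) := by
    intro a b
    rw [← inner_D hD b a, inner_self_eq_norm_sq_to_K]
    push_cast
    rfl
  have hi : ∀ i : Fin n, max (ν i) 0 * ‖T x‖ ^ 2 ≤ ‖D (EE (Fin.last n) i.castSucc) (T x)‖ ^ 2 := by
    intro i
    have h1 := comm_D hD i.castSucc (Fin.last n) (T x)
    rw [hll, sub_zero, ← min n ρ σ T hT D D' hD hD', hν i, map_smul] at h1
    have h2 := congrArg (fun z : ρ.Sp => (inner ℂ (T x) z : ℂ)) h1
    simp only [inner_sub_right, inner_smul_right] at h2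
    rw [hsq, hsq, inner_self_eq_norm_sq_to_K] at h2
    have h3 : ‖D (EE (Fin.last n) i.castSucc) (T x)‖ ^ 2 -
        ‖D (EE i.castSucc (Fin.last n)) (T x)‖ ^ 2 = ν i * ‖T x‖ ^ 2 := by
      have h4 := congrArg Complex.re h2
      have e1 : ((((‖D (EE (Fin.last n) i.castSucc) (T x)‖ ^ 2 : ℝ) : ℂ) -
          ((‖D (EE i.castSucc (Fin.last n)) (T x)‖ ^ 2 : ℝ) : ℂ))).re =
          ‖D (EE (Fin.last n) i.castSucc) (T x)‖ ^ 2 -
          ‖D (EE i.castSucc (Fin.last n)) (T x)‖ ^ 2 := by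
        rw [← Complex.ofReal_sub, Complex.ofReal_re]
      have e2 : (((ν i : ℝ) : ℂ) * ((‖T x‖ : ℂ)) ^ 2).re = ν i * ‖T x‖ ^ 2 := by
        rw [← Complex.ofReal_pow, ← Complex.ofReal_mul, Complex.ofReal_re]
      rw [e1] at h4
      rw [h4]
      exact e2
    rcases le_total (ν i) 0 with h0 | h0
    · rw [max_eq_right h0, zero_mul]
      positivity
    · rw [max_eq_left h0, ← h3]
      have : 0 ≤ ‖D (EE i.castSucc (Fin.last n)) (T x)‖ ^ 2 := by positivity
      linarith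
  have htot : ∑ i : Fin n, ‖D (EE (Fin.last n) i.castSucc) (T x)‖ ^ 2 =
      ((C - C') / 2) * ‖T x‖ ^ 2 := by
    have h1 := congrArg (fun z : ρ.Sp => (inner ℂ (T x) z : ℂ)) (hone x)
    simp only [inner_sum, inner_smul_right, hsq] at h1
    rw [inner_self_eq_norm_sq_to_K] at h1
    have h2 : ((∑ i : Fin n, ‖D (EE (Fin.last n) i.castSucc) (T x)‖ ^ 2 : ℝ) : ℂ) =
        ((((C - C') / 2) * ‖T x‖ ^ 2 : ℝ) : ℂ) := by
      rw [Complex.ofReal_sum, h1]
      push_cast
      rfl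
    exact_mod_cast h2
  have hfin : (∑ i, max (ν i) 0) * ‖T x‖ ^ 2 ≤ ((C - C') / 2) * ‖T x‖ ^ 2 := by
    rw [← htot, Finset.sum_mul]
    exact Finset.sum_le_sum fun i _ => hi i
  exact le_of_mul_le_mul_right hfin hv

theorem med (mdn : MDNStmt) (mca : MCAStmt) : MEDStmt := by
  intro n hn ρ d D C C' hD hC hD1 hcomp f hf hsf
  have hn0 : (0 : ℝ) < n := by exact_mod_cast hn
  have htot : f = ∑ t, d.T t (pr (d.T t) f) := d.tot f (hf (Fin.last n))
  have hin : ∀ t, (inner ℂ f (d.T t (pr (d.T t) f)) : ℂ) =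
      ((‖pr (d.T t) f‖ ^ 2 : ℝ) : ℂ) := by
    intro t
    have h1 : (inner ℂ f (d.T t (pr (d.T t) f)) : ℂ) =
        inner ℂ (pr (d.T t) f) (pr (d.T t) f) := by
      unfold pr
      rw [ContinuousLinearMap.adjoint_inner_left]
      rfl
    rw [h1, inner_self_eq_norm_sq_to_K]
    push_cast
    rfl
  have hsq : ∀ a b : Fin (n + 1), (inner ℂ f (D (EE a b) (D (EE b a) f)) : ℂ) =
      ((‖D (EE b a) f‖ ^ 2 : ℝ) : ℂ) := by
    intro a b
    rw [← inner_D hD b a, inner_self_eq_norm_sq_to_K]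
    push_cast
    rfl
  have hop : ∑ i : Fin n, D (EE i.castSucc (Fin.last n)) (D (EE (Fin.last n) i.castSucc) f) =
      ∑ t, (((C - C' t) / 2 : ℝ) : ℂ) • d.T t (pr (d.T t) f) := by
    have e : ∀ i : Fin n, D (EE i.castSucc (Fin.last n)) (D (EE (Fin.last n) i.castSucc) f) =
        ∑ t, D (EE i.castSucc (Fin.last n)) (D (EE (Fin.last n) i.castSucc)
          (d.T t (pr (d.T t) f))) := by
      intro i
      conv_lhs => rw [htot]
      rw [map_sum, map_sum]
    simp only [e]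
    rw [Finset.sum_comm]
    refine Finset.sum_congr rfl fun t _ => ?_
    obtain ⟨D', hD', hCt⟩ := hcomp t
    exact (mdn n ρ (d.σ t) (d.T t) (d.cmp t) D D' C (C' t) hD hD' hC hCt hD1).1 _
  have hleft : ∑ i : Fin n, ‖D (EE (Fin.last n) i.castSucc) f‖ ^ 2 =
      ∑ t, ((C - C' t) / 2) * ‖pr (d.T t) f‖ ^ 2 := by
    have h1 := congrArg (fun z : ρ.Sp => (inner ℂ f z : ℂ)) hop
    simp only [inner_sum, inner_smul_right, hsq, hin] at h1
    have h2 : ((∑ i : Fin n, ‖D (EE (Fin.last n) i.castSucc) f‖ ^ 2 : ℝ) : ℂ) =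
        ((∑ t, ((C - C' t) / 2) * ‖pr (d.T t) f‖ ^ 2 : ℝ) : ℂ) := by
      rw [Complex.ofReal_sum, h1, Complex.ofReal_sum]
      refine Finset.sum_congr rfl fun t _ => ?_
      rw [Complex.ofReal_mul]
    exact_mod_cast h2
  rw [← hleft]
  have hm := (mca (n + 1) ρ D C hD hC f hf).2 hsf
  have hval : ∀ i : Fin n, ‖D (EE (Fin.last n) i.castSucc) f‖ ^ 2 =
      C * ‖f‖ ^ 2 / (((n : ℝ) + 1) * n) := by
    intro i
    have h := hm i.castSucc (Fin.last n) (Fin.castSucc_lt_last i).ne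
    push_cast at h
    rw [eq_div_iff (by positivity), ← h]
    ring
  rw [Finset.sum_congr rfl fun i _ => hval i, Finset.sum_const, Finset.card_univ,
    Fintype.card_fin, nsmul_eq_mul]
  field_simp

end Pool.Agent.GRA.H32
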